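import Pool.Agent.W257.LStm2
import Pool.Agent.W469.LV1

/-! LV-5 (helper573, for helper257): expansions at infinity, real version. Adapted from
`Pool.Agent.W469.LV1`. -/

set_option autoImplicit false

namespace Pool.Agent.W573.LV5

open MvPolynomial Pool.Agent.W469.LV1

theorem Gf_zero2 {S : Type*} [CommRing S] (W : MvPolynomial (Fin 3) ℤ) (m : ℕ)
    (h : Polynomial ℤ) (hW : W.totalDegree ≤ m)
    (htop : MvPolynomial.aeval ![Polynomial.X, 0, 1] (MvPolynomial.homogeneousComponent m W) = h)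
    (ξ : S) : Gf W m ξ 0 0 = Polynomial.aeval ξ h := by
  have h0 : Polynomial.aeval ξ h = (aeval ![ξ, 0, 1] : MvPolynomial (Fin 3) ℤ →ₐ[ℤ] S)
      (MvPolynomial.homogeneousComponent m W) := by
    rw [← htop]
    have : ((Polynomial.aeval ξ : Polynomial ℤ →ₐ[ℤ] S).comp
        (aeval ![Polynomial.X, 0, 1] : MvPolynomial (Fin 3) ℤ →ₐ[ℤ] Polynomial ℤ)) =
        (aeval ![ξ, 0, 1] : MvPolynomial (Fin 3) ℤ →ₐ[ℤ] S) := by
      apply MvPolynomial.algHom_ext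
      intro i
      fin_cases i <;> simp
    rw [← this]
    rfl
  rw [h0, homogeneousComponent_apply, map_sum, Gf, Finset.sum_filter]
  apply Finset.sum_congr rfl
  intro n hn
  have h1 := deg_le hW hn
  have hd : n.degree = n 0 + n 1 + n 2 := by
    rw [Finsupp.degree_eq_sum, Fin.sum_univ_three]
  rw [hd]
  split_ifs with hc
  · rw [aeval_monomial, Finsupp.prod_pow, Fin.prod_univ_three]
    simp only [Matrix.cons_val_zero, Matrix.cons_val_one, Matrix.cons_val,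
      one_pow, mul_one]
    rw [hc, Nat.sub_self, pow_zero, mul_one, mul_assoc]
    simp
  · have : m - (n 0 + n 1 + n 2) ≠ 0 := by omega
    rw [zero_pow this]
    simp

theorem roots_near2 (m k : ℕ) (ρ : Fin k → ℤ) (h : Polynomial ℤ) (hmon : h.Monic)
    (hdeg : h.natDegree = m)
    (hreal : ∀ β : ℝ, Polynomial.aeval β h = 0 → ∃ i, β = ρ i)
    (C1 : ℝ) (hC1 : 0 ≤ C1) (ε : Fin k → ℝ)
    (hε : ∀ i, 0 < ε i) : ∃ δ₀ : ℝ, 0 < δ₀ ∧ ∀ δ ξ : ℝ, 0 ≤ δ → δ ≤ δ₀ →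
      |Polynomial.aeval ξ h| ≤ C1 * δ * (max 1 |ξ|) ^ (m - 1) → ∃ i, |ξ - ρ i| < ε i := by
  set S : ℝ := ∑ i ∈ Finset.range m, |((h.coeff i : ℤ) : ℝ)| with hS
  have hS0 : 0 ≤ S := Finset.sum_nonneg fun _ _ => abs_nonneg _
  set R : ℝ := 1 + 2 * S with hR
  have hR1 : 1 ≤ R := by linarith
  have hbig : ∀ ξ : ℝ, R ≤ |ξ| → |ξ| ^ m / 2 ≤ |Polynomial.aeval ξ h| := by
    intro ξ hξ
    have hξ1 : 1 ≤ |ξ| := hR1.trans hξ
    have e : Polynomial.aeval ξ h = ξ ^ m + ∑ i ∈ Finset.range m, ((h.coeff i : ℤ) : ℝ) * ξ ^ i := by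
      conv_lhs => rw [hmon.as_sum, hdeg]
      simp
    have h1 : |∑ i ∈ Finset.range m, ((h.coeff i : ℤ) : ℝ) * ξ ^ i| ≤ |ξ| ^ m / 2 := by
      rcases Nat.eq_zero_or_pos m with hm | hm
      · subst hm; simp
      have h2 : |∑ i ∈ Finset.range m, ((h.coeff i : ℤ) : ℝ) * ξ ^ i| ≤ S * |ξ| ^ (m - 1) := by
        refine (Finset.abs_sum_le_sum_abs _ _).trans ?_
        rw [hS, Finset.sum_mul]
        refine Finset.sum_le_sum fun i hi => ?_
        rw [Finset.mem_range] at hi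
        rw [abs_mul, abs_pow]
        exact mul_le_mul_of_nonneg_left (pow_le_pow_right₀ hξ1 (by omega)) (abs_nonneg _)
      refine h2.trans ?_
      have h3 : |ξ| ^ m = |ξ| ^ (m - 1) * |ξ| := by
        rw [← pow_succ]; congr 1; omega
      rw [h3]
      have h4 : 0 ≤ |ξ| ^ (m - 1) := by positivity
      nlinarith
    rw [e]
    have h5 := abs_sub_abs_le_abs_sub (ξ ^ m) (-∑ i ∈ Finset.range m, ((h.coeff i : ℤ) : ℝ) * ξ ^ i)
    rw [abs_neg, sub_neg_eq_add, abs_pow] at h5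
    linarith
  -- the compact part
  set Kc : Set ℝ := Set.Icc (-R) R ∩ {ξ | ∀ i, ε i ≤ |ξ - ρ i|} with hKc
  have hcl : IsClosed {ξ : ℝ | ∀ i, ε i ≤ |ξ - ρ i|} := by
    have : {ξ : ℝ | ∀ i, ε i ≤ |ξ - ρ i|} = ⋂ i, {ξ : ℝ | ε i ≤ |ξ - ρ i|} := by
      ext ξ; simp
    rw [this]
    exact isClosed_iInter fun i => isClosed_le continuous_const (by fun_prop)
  have hcomp : IsCompact Kc := isCompact_Icc.inter_right hcl
  have hcont : Continuous (fun ξ : ℝ => |Polynomial.aeval ξ h|) := by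
    have : Continuous (fun ξ : ℝ => Polynomial.aeval ξ h) := h.continuous_aeval
    exact this.abs
  obtain ⟨μ, hμ0, hμ⟩ : ∃ μ : ℝ, 0 < μ ∧ ∀ ξ ∈ Kc, μ ≤ |Polynomial.aeval ξ h| := by
    rcases Kc.eq_empty_or_nonempty with he | hne
    · exact ⟨1, one_pos, fun ξ hξ => by rw [he] at hξ; exact absurd hξ (Set.notMem_empty _)⟩
    · obtain ⟨ξ₀, hξ₀, hmin⟩ := hcomp.exists_isMinOn hne hcont.continuousOn
      refine ⟨|Polynomial.aeval ξ₀ h|, ?_, fun ξ hξ => hmin hξ⟩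
      rw [abs_pos]
      intro h0
      obtain ⟨i, hi⟩ := hreal ξ₀ h0
      have := hξ₀.2 i
      rw [hi, sub_self, abs_zero] at this
      exact absurd this (not_le.2 (hε i))
  refine ⟨min (μ / (2 * (C1 + 1) * R ^ (m - 1))) (1 / (4 * (C1 + 1))), by positivity, ?_⟩
  intro δ ξ h0 hd hle
  by_contra hcon
  push Not at hcon
  have hd1 : δ ≤ μ / (2 * (C1 + 1) * R ^ (m - 1)) := hd.trans (min_le_left _ _)
  have hd2 : δ ≤ 1 / (4 * (C1 + 1)) := hd.trans (min_le_right _ _)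
  rcases le_or_gt |ξ| R with hξ | hξ
  · have hmem : ξ ∈ Kc := ⟨Set.mem_Icc.2 (abs_le.1 hξ), hcon⟩
    have h1 := hμ ξ hmem
    have h2 : (max 1 |ξ|) ^ (m - 1) ≤ R ^ (m - 1) := pow_le_pow_left₀ (by positivity)
      (max_le hR1 hξ) _
    have h3 : μ ≤ C1 * δ * R ^ (m - 1) :=
      (h1.trans hle).trans (mul_le_mul_of_nonneg_left h2 (by positivity))
    rw [le_div_iff₀ (by positivity)] at hd1
    have h4 : 0 ≤ δ * R ^ (m - 1) := by positivity
    nlinarith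
  · have h1 := hbig ξ hξ.le
    have hξ1 : 1 ≤ |ξ| := hR1.trans hξ.le
    rw [max_eq_right hξ1] at hle
    rw [le_div_iff₀ (by positivity)] at hd2
    have h2 : |ξ| ^ m / 2 ≤ C1 * δ * |ξ| ^ (m - 1) := h1.trans hle
    have h3 : |ξ| ^ (m - 1) ≤ |ξ| ^ m := pow_le_pow_right₀ hξ1 (by omega)
    have h4 : 0 < |ξ| ^ m := by positivity
    have h5 : C1 * δ * |ξ| ^ (m - 1) ≤ C1 * δ * |ξ| ^ m := mul_le_mul_of_nonneg_left h3 (by positivity)
    have h6 : 1 / 2 ≤ C1 * δ := by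
      have : |ξ| ^ m * (1 / 2) ≤ |ξ| ^ m * (C1 * δ) := by linarith
      exact le_of_mul_le_mul_left this h4
    nlinarith

theorem lower2 (k : ℕ) (ρ : Fin k → ℤ) (h : Polynomial ℤ)
    (hroot : ∀ i, h.eval (ρ i) = 0 ∧ h.derivative.eval (ρ i) ≠ 0) (i : Fin k) :
    ∃ ε D : ℝ, 0 < ε ∧ 0 < D ∧ ∀ ξ η : ℝ, |ξ - ρ i| < ε → |η - ρ i| < ε →
      D * |ξ - η| ≤ |Polynomial.aeval ξ h - Polynomial.aeval η h| := by
  set P : Polynomial ℝ := h.map (Int.castRingHom ℝ) with hP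
  have hev : ∀ ξ : ℝ, Polynomial.aeval ξ h = P.eval ξ := by
    intro ξ
    rw [hP, Polynomial.eval_map, Polynomial.aeval_def]
    rfl
  have hne : P.derivative.eval ((ρ i : ℤ) : ℝ) ≠ 0 := by
    rw [hP, Polynomial.derivative_map, Polynomial.eval_intCast_map]
    simpa using (hroot i).2
  have hs := (P.hasStrictDerivAt ((ρ i : ℤ) : ℝ)).hasStrictFDerivAt.isLittleO
  have hD : 0 < |P.derivative.eval ((ρ i : ℤ) : ℝ)| / 2 := by positivity
  have hev2 := hs.def hD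
  rw [Metric.eventually_nhds_iff] at hev2
  obtain ⟨ε, hε, H⟩ := hev2
  refine ⟨ε, |P.derivative.eval ((ρ i : ℤ) : ℝ)| / 2, hε, hD, fun ξ η hξ hη => ?_⟩
  have h := H (y := (ξ, η)) (by
    rw [Prod.dist_eq, Real.dist_eq, Real.dist_eq]
    exact max_lt hξ hη)
  simp only [Real.norm_eq_abs] at h
  have h2 : (ContinuousLinearMap.toSpanSingleton ℝ (P.derivative.eval ((ρ i : ℤ) : ℝ))) (ξ - η)
      = (ξ - η) * P.derivative.eval ((ρ i : ℤ) : ℝ) := by
    simp [ContinuousLinearMap.toSpanSingleton_apply]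
  rw [h2] at h
  rw [hev, hev]
  have h3 : |(ξ - η) * P.derivative.eval ((ρ i : ℤ) : ℝ)| =
      |P.derivative.eval ((ρ i : ℤ) : ℝ)| * |ξ - η| := by rw [abs_mul, mul_comm]
  have h4 := abs_sub_abs_le_abs_sub ((ξ - η) * P.derivative.eval ((ρ i : ℤ) : ℝ))
    (P.eval ξ - P.eval η)
  rw [abs_sub_comm ((ξ - η) * P.derivative.eval ((ρ i : ℤ) : ℝ))] at h4
  linarith

/-- the Newton polynomials -/
theorem approx2 (W : MvPolynomial (Fin 3) ℤ) (m k : ℕ) (ρ : Fin k → ℤ) (h : Polynomial ℤ)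
    (hW : W.totalDegree ≤ m)
    (htop : MvPolynomial.aeval ![Polynomial.X, 0, 1] (MvPolynomial.homogeneousComponent m W) = h)
    (hroot : ∀ i, h.eval (ρ i) = 0 ∧ h.derivative.eval (ρ i) ≠ 0)
    (K : ℕ) (i : Fin k) : ∃ (q : MvPolynomial (Fin 2) ℚ) (Cq Cg : ℝ), 0 ≤ Cq ∧ 0 ≤ Cg ∧
      ∀ δ u v : ℝ, 0 ≤ δ → δ ≤ 1 → |u| ≤ δ → |v| ≤ δ →
        |aeval ![u, v] q - ρ i| ≤ Cq * δ ∧
        |Gf W m (aeval ![u, v] q : ℝ) u v| ≤ Cg * δ ^ (K + 1) := by
  set I : Ideal (MvPolynomial (Fin 2) ℚ) :=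
    RingHom.ker (constantCoeff : MvPolynomial (Fin 2) ℚ →+* ℚ) with hI
  set g : Polynomial (MvPolynomial (Fin 2) ℚ) :=
    Gf W m Polynomial.X (Polynomial.C (X 0)) (Polynomial.C (X 1)) with hg
  have hgm : g.map (constantCoeff : MvPolynomial (Fin 2) ℚ →+* ℚ) =
      h.map (Int.castRingHom ℚ) := by
    have h1 := map_Gf (Polynomial.mapRingHom (constantCoeff : MvPolynomial (Fin 2) ℚ →+* ℚ)) W m
      Polynomial.X (Polynomial.C (X 0)) (Polynomial.C (X 1))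
    rw [Polynomial.coe_mapRingHom] at h1
    rw [hg, h1]
    simp only [Polynomial.map_X, Polynomial.map_C, constantCoeff_X, map_zero]
    rw [Gf_zero2 W m h hW htop]
    rw [Polynomial.aeval_def]
    have key : ∀ f : ℤ →+* Polynomial ℚ, Polynomial.eval₂ f Polynomial.X h =
        h.map (Int.castRingHom ℚ) := by
      intro f
      have e : f = Polynomial.C.comp (Int.castRingHom ℚ) := RingHom.ext_int _ _
      rw [e]
      rfl
    exact key _
  have hφ : ∀ (p : Polynomial (MvPolynomial (Fin 2) ℚ)) (x : MvPolynomial (Fin 2) ℚ),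
      (constantCoeff : MvPolynomial (Fin 2) ℚ →+* ℚ) (p.eval x) =
      (p.map (constantCoeff : MvPolynomial (Fin 2) ℚ →+* ℚ)).eval (constantCoeff x) := by
    intro p x
    rw [Polynomial.eval_map, Polynomial.eval₂_at_apply]
  have hne : (h.map (Int.castRingHom ℚ)).derivative.eval ((ρ i : ℤ) : ℚ) ≠ 0 := by
    rw [Polynomial.derivative_map, Polynomial.eval_intCast_map]
    simpa using (hroot i).2
  have hcc : (constantCoeff : MvPolynomial (Fin 2) ℚ →+* ℚ) (((ρ i : ℤ) : MvPolynomial (Fin 2) ℚ))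
      = ((ρ i : ℤ) : ℚ) := by simp
  obtain ⟨q, hq, hgq⟩ := newton I g ((ρ i : ℤ) : MvPolynomial (Fin 2) ℚ)
    (C (((h.map (Int.castRingHom ℚ)).derivative.eval ((ρ i : ℤ) : ℚ))⁻¹)) (by
      rw [hI, RingHom.mem_ker, hφ, hgm, hcc, Polynomial.eval_intCast_map]
      simp [(hroot i).1]) (by
      rw [hI, RingHom.mem_ker, map_sub, map_mul, hφ, ← Polynomial.derivative_map, hgm, hcc,
        constantCoeff_C, map_one, mul_inv_cancel₀ hne, sub_self]) K
  obtain ⟨Cq, hCq, HCq⟩ := ker_le hq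
  obtain ⟨Cg, hCg, HCg⟩ := J_pow I ker_le (K + 1) hgq
  refine ⟨q, Cq, Cg, hCq, hCg, fun δ u v h0 hd hu hv => ⟨?_, ?_⟩⟩
  · have h := HCq δ u v h0 hd hu hv
    rw [map_sub, pow_one] at h
    simpa using h
  · have h := HCg δ u v h0 hd hu hv
    have h1 : g.eval q = Gf W m q (X 0) (X 1) := by
      have h := map_Gf (Polynomial.evalRingHom q) W m Polynomial.X (Polynomial.C (X 0))
        (Polynomial.C (X 1))
      rw [Polynomial.coe_evalRingHom] at h
      rw [hg, h]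
      simp
    rw [h1] at h
    have h2 := map_Gf (aeval ![u, v] : MvPolynomial (Fin 2) ℚ →ₐ[ℚ] ℝ).toRingHom W m q (X 0) (X 1)
    simp only [AlgHom.toRingHom_eq_coe, RingHom.coe_coe, aeval_X, Matrix.cons_val_zero,
      Matrix.cons_val_one] at h2
    rw [h2] at h
    exact h

theorem main : Pool.Agent.W257.S_exp2 := by
  intro m k ρ h W hW hmon hdeg htop hreal hroot K
  obtain ⟨C1, hC1, HC1⟩ := E1 W m hW
  choose ε D hε hD hlow using lower2 k ρ h hroot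
  choose q Cq Cg hCq hCg hq using approx2 W m k ρ h hW htop hroot K
  choose C2 hC2 HC2 using fun i : Fin k => E2 W m (|((ρ i : ℤ) : ℝ)| + ε i)
  obtain ⟨δ₀, hδ₀, Hδ₀⟩ := roots_near2 m k ρ h hmon hdeg hreal C1 hC1 ε hε
  obtain ⟨δ₁, ⟨hd1, hd2, hd3⟩, hδ₁⟩ : ∃ δ₁ : ℝ, (δ₁ ≤ 1 ∧ δ₁ ≤ δ₀ ∧
      ∀ i, Cq i * δ₁ < ε i ∧ C2 i * δ₁ ≤ D i / 2) ∧ 0 < δ₁ := by
    have h : ∀ᶠ δ₁ in nhdsWithin (0 : ℝ) (Set.Ioi 0), δ₁ ≤ 1 ∧ δ₁ ≤ δ₀ ∧
      ∀ i, Cq i * δ₁ < ε i ∧ C2 i * δ₁ ≤ D i / 2 := by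
      refine Filter.Eventually.filter_mono nhdsWithin_le_nhds ?_
      refine (eventually_le_nhds one_pos).and ((eventually_le_nhds hδ₀).and ?_)
      rw [Filter.eventually_all]
      intro i
      have c1 : Filter.Tendsto (fun δ : ℝ => Cq i * δ) (nhds 0) (nhds 0) := by
        have : Filter.Tendsto (fun δ : ℝ => Cq i * δ) (nhds 0) (nhds (Cq i * 0)) :=
          (continuous_const.mul continuous_id).tendsto 0
        simpa using this
      have c2 : Filter.Tendsto (fun δ : ℝ => C2 i * δ) (nhds 0) (nhds 0) := by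
        have : Filter.Tendsto (fun δ : ℝ => C2 i * δ) (nhds 0) (nhds (C2 i * 0)) :=
          (continuous_const.mul continuous_id).tendsto 0
        simpa using this
      exact (c1.eventually (eventually_lt_nhds (hε i))).and
        (c2.eventually (eventually_le_nhds (half_pos (hD i))))
    exact (h.and self_mem_nhdsWithin).exists
  refine ⟨q, ∑ i, 2 / D i * Cg i, 1 / δ₁, ?_⟩
  intro x y t hA hy h0
  have ht0 : 0 < |t| := lt_of_lt_of_le (by positivity) hA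
  have htne : t ≠ 0 := abs_pos.mp ht0
  have hyne : y ≠ 0 := by
    intro h; rw [h, abs_zero] at hy; linarith
  have hz : t * y ≠ 0 := mul_ne_zero htne hyne
  set δ : ℝ := 1 / |t| with hδ
  have hδ0 : 0 ≤ δ := by positivity
  have hδ1 : δ ≤ δ₁ := by
    rw [hδ, div_le_iff₀ ht0]
    rw [div_le_iff₀ hδ₁] at hA
    linarith
  set u : ℝ := 1 / t with hu
  set v : ℝ := 1 / (t * y) with hv
  have hu1 : |u| ≤ δ := by rw [hu, hδ, abs_div, abs_one]
  have hv1 : |v| ≤ δ := by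
    rw [hv, hδ, abs_div, abs_one, abs_mul]
    apply one_div_le_one_div_of_le ht0
    nlinarith
  have hF : Gf W m (x / (t * y)) u v = 0 := by
    have h := Gf_eq W m hW x y (t * y) hz
    rw [h0] at h
    have e : y / (t * y) = u := by rw [hu]; field_simp
    rw [e] at h
    exact (mul_eq_zero.mp h).resolve_left (pow_ne_zero _ hz)
  set ξ : ℝ := x / (t * y) with hξ
  have hδle1 : δ ≤ 1 := hδ1.trans hd1
  have hprod := HC1 δ u v ξ hδ0 hδle1 hu1 hv1
  rw [hF, zero_sub, abs_neg, Gf_zero2 W m h hW htop] at hprod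
  obtain ⟨i, hi⟩ := Hδ₀ δ ξ hδ0 (hδ1.trans hd2) hprod
  refine ⟨i, ?_⟩
  obtain ⟨hq1, hq2⟩ := hq i δ u v hδ0 hδle1 hu1 hv1
  set η : ℝ := aeval ![u, v] (q i) with hη
  have hηi : |η - ρ i| < ε i := by
    refine lt_of_le_of_lt (hq1.trans ?_) (hd3 i).1
    exact mul_le_mul_of_nonneg_left hδ1 (hCq i)
  have hl := hlow i ξ η hi hηi
  have hbd : ∀ s : ℝ, |s - ρ i| < ε i → |s| ≤ |((ρ i : ℤ) : ℝ)| + ε i := by
    intro s hs
    have h : |s| - |((ρ i : ℤ) : ℝ)| ≤ |s - ρ i| := abs_sub_abs_le_abs_sub _ _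
    linarith
  have h2 := HC2 i δ u v ξ η hδ0 hδle1 hu1 hv1 (hbd ξ hi) (hbd η hηi)
  rw [hF, Gf_zero2 W m h hW htop, Gf_zero2 W m h hW htop] at h2
  have h3 : |Polynomial.aeval ξ h - Polynomial.aeval η h| ≤
      C2 i * δ * |ξ - η| + Cg i * δ ^ (K + 1) := by
    have e : Polynomial.aeval ξ h - Polynomial.aeval η h =
        -((0 - Polynomial.aeval ξ h) - (Gf W m η u v - Polynomial.aeval η h))
        + (- Gf W m η u v) := by ring
    rw [e]
    refine (abs_add_le _ _).trans (add_le_add ?_ ?_)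
    · rw [abs_neg]; exact h2
    · rw [abs_neg]; exact hq2
  have h4 : C2 i * δ * |ξ - η| ≤ D i / 2 * |ξ - η| := by
    refine mul_le_mul_of_nonneg_right ?_ (abs_nonneg _)
    exact (mul_le_mul_of_nonneg_left hδ1 (hC2 i)).trans (hd3 i).2
  have h5 : D i / 2 * |ξ - η| ≤ Cg i * δ ^ (K + 1) := by linarith
  have h6 : |ξ - η| ≤ 2 / D i * Cg i * δ ^ (K + 1) := by
    have hDi := hD i
    have : |ξ - η| = 2 / D i * (D i / 2 * |ξ - η|) := by field_simp
    rw [this, mul_assoc]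
    exact mul_le_mul_of_nonneg_left h5 (by positivity)
  have h7 : 2 / D i * Cg i ≤ ∑ i, 2 / D i * Cg i :=
    Finset.single_le_sum (f := fun i => 2 / D i * Cg i) (fun j _ => by
      have := hD j; have := hCg j; positivity) (Finset.mem_univ i)
  have e1 : x - t * y * η = (t * y) * (ξ - η) := by
    rw [hξ]; field_simp
  rw [e1, abs_mul, abs_mul]
  have e2 : δ * |t| = 1 := by rw [hδ]; field_simp
  calc |t| * |y| * |ξ - η| * |t| ^ K = (|y| * |t| ^ (K + 1)) * |ξ - η| := by ring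
    _ ≤ (|y| * |t| ^ (K + 1)) * (2 / D i * Cg i * δ ^ (K + 1)) :=
        mul_le_mul_of_nonneg_left h6 (by positivity)
    _ = (2 / D i * Cg i) * |y| * (δ * |t|) ^ (K + 1) := by rw [mul_pow]; ring
    _ = (2 / D i * Cg i) * |y| := by rw [e2, one_pow, mul_one]
    _ ≤ (∑ i, 2 / D i * Cg i) * |y| := mul_le_mul_of_nonneg_right h7 (abs_nonneg _)


end Pool.Agent.W573.LV5
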